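import Pool.Agent.H12.WS3

/-! Under the continuum hypothesis there is a (nonseparable) real Banach space `E` whose dual has
a weak* basis but no weak* Schauder basis. -/

open Filter Topology Finset BoundedContinuousFunction Pool.Agent.H12.WS

namespace Pool.Agent.Results.MP_605a0d_an.CH

section defs
variable {E : Type} [NormedAddCommGroup E] [NormedSpace ℝ E]

/-- `f = ∑ a n • h n`, the series converging in the weak* topology -/
def Expands (h : ℕ → StrongDual ℝ E) (f : StrongDual ℝ E) (a : ℕ → ℝ) : Prop :=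
  ∀ x : E, Tendsto (fun N => ∑ n ∈ range N, a n * h n x) atTop (𝓝 (f x))

/-- every functional has exactly one weak* convergent expansion -/
def IsWeakStarBasis (h : ℕ → StrongDual ℝ E) : Prop :=
  ∀ f : StrongDual ℝ E, ∃! a : ℕ → ℝ, Expands h f a

/-- a weak* basis whose coefficient functionals are weak* continuous -/
def IsWeakStarSchauderBasis (h : ℕ → StrongDual ℝ E) : Prop :=
  IsWeakStarBasis h ∧ ∃ c : ℕ → WeakDual ℝ E → ℝ, (∀ n, Continuous (c n)) ∧
    ∀ f : StrongDual ℝ E, Expands h f fun n => c n (StrongDual.toWeakDual f)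

lemma separable_of_schauder {h : ℕ → StrongDual ℝ E} (hh : IsWeakStarSchauderBasis h) :
    TopologicalSpace.SeparableSpace E := by
  obtain ⟨hb, c, hc, he⟩ := hh
  have hadd : ∀ f g : StrongDual ℝ E, (fun n => c n (StrongDual.toWeakDual (f + g))) =
      fun n => c n (StrongDual.toWeakDual f) + c n (StrongDual.toWeakDual g) := fun f g =>
    (hb (f + g)).unique (he _) fun x => by
      simpa [add_mul, sum_add_distrib] using (he f x).add (he g x)
  have hsmul : ∀ (t : ℝ) (f : StrongDual ℝ E), (fun n => c n (StrongDual.toWeakDual (t • f))) =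
      fun n => t * c n (StrongDual.toWeakDual f) := fun t f =>
    (hb (t • f)).unique (he _) fun x => by
      simpa [mul_sum, mul_assoc] using (he f x).const_mul t
  have h1 : ∀ n, ∃ x : E, ∀ f : StrongDual ℝ E, c n (StrongDual.toWeakDual f) = f x := fun n => by
    let φ : WeakBilin (topDualPairing ℝ E) →L[ℝ] ℝ :=
      { toFun := c n
        map_add' := fun f g => congrFun (hadd f g) n
        map_smul' := fun t f => congrFun (hsmul t f) n
        cont := hc n }
    obtain ⟨x, hx⟩ := LinearMap.dualEmbedding_surjective (topDualPairing ℝ E) φ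
    exact ⟨x, fun f => (DFunLike.congr_fun hx f).symm⟩
  choose x hx using h1
  have h2 : closure (Submodule.span ℝ (Set.range x) : Set E) = Set.univ := by
    by_contra h3
    obtain ⟨y, hy⟩ := (Set.ne_univ_iff_exists_notMem _).1 h3
    obtain ⟨f, u, h4, h5⟩ := geometric_hahn_banach_closed_point
      (Submodule.span ℝ (Set.range x)).convex.closure isClosed_closure hy
    have h6 : ∀ n, f (x n) = 0 := fun n => by
      by_contra h7
      have := h4 ((u / f (x n)) • x n) (subset_closure
        (Submodule.smul_mem _ _ (Submodule.subset_span ⟨n, rfl⟩)))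
      rw [map_smul, smul_eq_mul, div_mul_cancel₀ _ h7] at this
      exact lt_irrefl _ this
    have h7 := h4 0 (subset_closure (Submodule.zero_mem _))
    have h8 := he f y
    simp only [hx, h6, zero_mul, sum_const_zero] at h8
    have := tendsto_nhds_unique h8 tendsto_const_nhds
    rw [map_zero] at h7
    linarith
  rw [← TopologicalSpace.isSeparable_univ_iff, ← h2]
  exact (Set.countable_range x).isSeparable.span.closure

end defs

section space
variable {ι : Type} (A : ι → Set ℕ)

def gens : Set (ℕ →ᵇ ℝ) := Set.range (fun m => ind {m}) ∪ Set.range fun i => ind (A i)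

noncomputable def EE : Submodule ℝ (ℕ →ᵇ ℝ) := (Submodule.span ℝ (gens A)).topologicalClosure

lemma mem_EE {x : ℕ →ᵇ ℝ} (hx : x ∈ gens A) : x ∈ EE A :=
  Submodule.le_topologicalClosure _ (Submodule.subset_span hx)

/-- the closed span of the indicators, as a Banach space -/
def XX : Type := EE A

noncomputable instance : NormedAddCommGroup (XX A) := inferInstanceAs (NormedAddCommGroup (EE A))

noncomputable instance : NormedSpace ℝ (XX A) := inferInstanceAs (NormedSpace ℝ (EE A))

instance : CompleteSpace (XX A) :=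
  (Submodule.isClosed_topologicalClosure _).completeSpace_coe

noncomputable def del (n : ℕ) : StrongDual ℝ (XX A) := (evalCLM ℝ n).comp (EE A).subtypeL

noncomputable def hh (n : ℕ) : StrongDual ℝ (XX A) :=
  if n = 0 then del A 0 else del A n - del A (n / 2)

lemma hh_apply (n : ℕ) (x : XX A) : hh A n x = hv x.1 n := by
  unfold hh hv
  split_ifs <;> rfl

variable {A} {b : ι → ℕ → ℕ}

lemma exists_expansion (hb : ∀ i, Br (b i)) (hbA : ∀ i k, b i k ∈ A i)
    (hA : ∀ i j, i ≠ j → (A i ∩ A j).Finite) (f : StrongDual ℝ (XX A)) :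
    ∃ a, Expands (hh A) f a := by
  classical
  obtain ⟨g, hg, -⟩ := exists_extension_norm_eq (EE A) f
  have hw := summable_single g
  have hw' := summable_atom g A hA
  let a : ℕ → ℝ := fun n => mix (fun m => g (ind {m})) anc n +
    mix (fun i => atom g (A i)) (fun i => brs (b i)) n
  let Φ : ℕ → (ℕ →ᵇ ℝ) → ℝ := fun M x => ∑ n ∈ range M, a n * hv x n
  have hΦ : ∀ M x, Φ M x = ∑ n ∈ range M, mix (fun m => g (ind {m})) anc n * hv x n +
      ∑ n ∈ range M, mix (fun i => atom g (A i)) (fun i => brs (b i)) n * hv x n := fun M x => by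
    simp only [Φ, a, add_mul, sum_add_distrib]
  have hadd : ∀ M x y, Φ M (x + y) = Φ M x + Φ M y := fun M x y => by
    simp only [Φ, ← sum_add_distrib]
    refine sum_congr rfl fun n _ => ?_
    simp only [hv, BoundedContinuousFunction.add_apply]
    split_ifs <;> ring
  have hsmul : ∀ M (t : ℝ) x, Φ M (t • x) = t * Φ M x := fun M t x => by
    simp only [Φ, mul_sum]
    refine sum_congr rfl fun n _ => ?_
    simp only [hv, BoundedContinuousFunction.smul_apply, smul_eq_mul]
    split_ifs <;> ring
  obtain ⟨C, hC⟩ : ∃ C, ∀ M x, |Φ M x| ≤ C * ‖x‖ :=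
    ⟨∑' m, |g (ind {m})| + ∑' i, |atom g (A i)|, fun M x => by
      have h0 : ∀ n, |x n| ≤ ‖x‖ := fun n => x.norm_coe_le_norm n
      rw [hΦ, add_mul]
      exact (abs_add_le _ _).trans (add_le_add (mix_bound hw anc_path h0 M)
        (mix_bound hw' (fun i => (hb i).path) h0 M))⟩
  have heq : Equicontinuous Φ := by
    refine Metric.equicontinuous_of_continuity_modulus (fun r => C * r) ?_ Φ fun x y M => ?_
    · simpa using (tendsto_id (x := 𝓝 (0 : ℝ))).const_mul C
    · have h1 := hadd M (x - y) y
      rw [sub_add_cancel] at h1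
      rw [Real.dist_eq, dist_eq_norm, h1, add_sub_cancel_right]
      exact hC M _
  let S : Submodule ℝ (ℕ →ᵇ ℝ) :=
    { carrier := {x | Tendsto (Φ · x) atTop (𝓝 (g x))}
      add_mem' := fun {x y} hx hy => by
        simp only [Set.mem_ofPred_eq, hadd, map_add] at hx hy ⊢
        exact hx.add hy
      zero_mem' := by simp [Φ, hv]
      smul_mem' := fun t x hx => by
        simp only [Set.mem_ofPred_eq, hsmul, map_smul, smul_eq_mul] at hx ⊢
        exact hx.const_mul t }
  have hS : EE A ≤ S := by
    refine Submodule.topologicalClosure_minimal _ (Submodule.span_le.2 ?_)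
      (heq.isClosed_setOfPred_tendsto g.continuous)
    rintro _ (⟨m, rfl⟩ | ⟨j, rfl⟩)
    · change Tendsto (Φ · (ind {m})) atTop (𝓝 (g (ind {m})))
      simp only [hΦ]
      have h1 := (mix_tendsto hw anc_path (ind_abs {m}) fun k => T_anc k _).add
        (mix_tendsto (l := fun _ => 0) hw' (fun i => (hb i).path) (ind_abs {m}) fun i =>
          (hb i).T_tendsto (by
            filter_upwards [eventually_gt_atTop m] with k hk
            have := (hb i).mono.le_apply (x := k)
            exact Set.indicator_of_notMem (by simp; omega) _))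
      rw [tsum_eq_single m fun k hk => by simp [hk]] at h1
      convert h1 using 2
      · rfl
      · simp
    · change Tendsto (Φ · (ind (A j))) atTop (𝓝 (g (ind (A j))))
      simp only [hΦ]
      have h1 := (mix_tendsto hw anc_path (ind_abs (A j)) fun k => T_anc k _).add
        (mix_tendsto (l := fun i => if i = j then 1 else 0) hw' (fun i => (hb i).path)
          (ind_abs (A j)) fun i => (hb i).T_tendsto (by
            split_ifs with h
            · exact Eventually.of_forall fun k => Set.indicator_of_mem (h ▸ hbA i k) _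
            · obtain ⟨K, hK⟩ := (hA i j h).bddAbove
              filter_upwards [eventually_gt_atTop K] with k hk
              refine Set.indicator_of_notMem (fun h2 => ?_) _
              have := (hb i).mono.le_apply (x := k)
              have := hK ⟨hbA i k, h2⟩
              omega))
      rw [tsum_eq_single j fun k hk => by simp [hk]] at h1
      convert h1 using 2
      · rfl
      · simp [atom]
  refine ⟨a, fun x => ?_⟩
  have h1 : g x.1 = f x := hg x
  simp only [hh_apply, ← h1]
  exact hS x.2

lemma unique_expansion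
    (hK : ∀ c, Good c → (∀ i, Tendsto (lsum c (A i)) atTop (𝓝 0)) → ∀ s, 1 ≤ s → c s = 0)
    {c : ℕ → ℝ} (hc : Expands (hh A) 0 c) : c = 0 := by
  have h0 : ∀ x : XX A, Tendsto (fun M => ∑ n ∈ range M, c n * hv x.1 n) atTop (𝓝 0) :=
    fun x => by simpa [hh_apply] using hc x
  have h1 := fun m => add_of_tendsto m (h0 ⟨ind {m}, mem_EE A (Or.inl ⟨m, rfl⟩)⟩)
  have h2 : ∀ x : XX A, Tendsto (fun N => ∑ u ∈ desc 1 N, c u * x.1 u) atTop (𝓝 0) := fun x => by
    have h3 : Tendsto (fun N : ℕ => 2 ^ (N + 1)) atTop atTop :=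
      (tendsto_pow_atTop_atTop_of_one_lt one_lt_two).comp (tendsto_add_atTop_nat 1)
    exact ((h0 x).comp h3).congr fun N =>
      level_sum ((h1 0).1 rfl) (fun m hm => (h1 m).2 hm) _ N
  obtain ⟨C, hC⟩ := banach_steinhaus (g := fun N => ∑ u ∈ desc 1 N, c u • del A u) fun x => by
    obtain ⟨C, hC⟩ := (h2 x).norm.bddAbove_range
    refine ⟨C, fun N => le_trans (le_of_eq ?_) (hC ⟨N, rfl⟩)⟩
    rw [_root_.sum_apply]
    rfl
  have hG : Good c := ⟨fun m hm => (h1 m).2 hm, C, fun N => by
    have h3 := norm_comb (desc 1 N) (fun m => {m}) (fun m => sg (c m)) (fun _ => sg_abs _)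
      fun _ _ _ _ h => Set.disjoint_singleton.2 h
    have h4 : ∑ k ∈ desc 1 N, sg (c k) • ind {k} ∈ EE A :=
      Submodule.sum_mem _ fun k _ => Submodule.smul_mem _ _ (mem_EE A (Or.inl ⟨k, rfl⟩))
    have h5 := (∑ u ∈ desc 1 N, c u • del A u).le_opNorm_of_le (x := ⟨_, h4⟩) h3
    rw [mul_one, _root_.sum_apply] at h5
    refine le_trans (le_of_eq ?_) (((le_abs_self _).trans h5).trans (hC N))
    refine sum_congr rfl fun u hu => ?_
    change _ = c u * (∑ k ∈ desc 1 N, sg (c k) • ind {k}) u
    rw [BoundedContinuousFunction.coe_sum, Finset.sum_apply, sum_eq_single_of_mem u hu]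
    · simp [← sg_mul, mul_comm]
    · intro l _ h6
      simp [h6.symm]⟩
  have h3 := hK c hG fun i => h2 ⟨ind (A i), mem_EE A (Or.inr ⟨i, rfl⟩)⟩
  funext n
  rcases Nat.eq_zero_or_pos n with rfl | hn
  · rw [(h1 0).1 rfl]; exact h3 1 le_rfl
  · exact h3 n hn

lemma not_separable [Uncountable ι] (hb : ∀ i, Br (b i)) (hbA : ∀ i k, b i k ∈ A i)
    (hA : ∀ i j, i ≠ j → (A i ∩ A j).Finite) : ¬ TopologicalSpace.SeparableSpace (XX A) := by
  intro hs
  let y : ι → XX A := fun i => ⟨ind (A i), mem_EE A (Or.inr ⟨i, rfl⟩)⟩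
  refine not_countable (α := ι) (Pairwise.countable_of_isOpen_disjoint
    (s := fun i => Metric.ball (y i) (1 / 2)) (fun i j hij => Metric.ball_disjoint_ball ?_)
    (fun _ => Metric.isOpen_ball) fun i => Metric.nonempty_ball.2 (by norm_num))
  obtain ⟨K, hK⟩ := (hA i j hij).bddAbove
  have h1 : b i (K + 1) ∉ A j := fun h => by
    have := (hb i).mono.le_apply (x := K + 1)
    have := hK ⟨hbA i _, h⟩
    omega
  have h2 := dist_coe_le_dist (f := ind (A i)) (g := ind (A j)) (b i (K + 1))
  simp only [ind_apply, Set.indicator_of_mem (hbA i _), Set.indicator_of_notMem h1] at h2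
  norm_num at h2 ⊢
  exact h2

end space

theorem result (hCH : Cardinal.continuum.{0} = Cardinal.aleph 1) :
    ∃ (E : Type) (_ : NormedAddCommGroup E) (_ : NormedSpace ℝ E), CompleteSpace E ∧
      ¬ TopologicalSpace.SeparableSpace E ∧
      (∃ h : ℕ → StrongDual ℝ E, IsWeakStarBasis h) ∧
      ¬ ∃ h : ℕ → StrongDual ℝ E, IsWeakStarSchauderBasis h := by
  obtain ⟨ι, A, b, hι, hb, hbA, hA, hK⟩ := family hCH
  have hns := not_separable hb hbA hA
  refine ⟨XX A, inferInstance, inferInstance, inferInstance, hns, ⟨hh A, fun f => ?_⟩,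
    fun ⟨h, hh⟩ => hns (separable_of_schauder hh)⟩
  obtain ⟨a, ha⟩ := exists_expansion hb hbA hA f
  refine ⟨a, ha, fun a' ha' => sub_eq_zero.1 (unique_expansion hK fun x => ?_)⟩
  simpa [sub_mul, sum_sub_distrib] using (ha' x).sub (ha x)

end Pool.Agent.Results.MP_605a0d_an.CH
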